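import Pool.Agent.Q87.Finitary.Sylow

/-!
# Transitive Sylow subgroups of finitary permutation groups and normal subgroups
-/

namespace Pool.Agent.Results.MP_055c61_al.SylowInheritance

open Pool.Agent.Q87.Finitary MulAction

/-- For every group `G` of finitary permutations, every normal subgroup `N` of `G` and every
Sylow `p`-subgroup `S` of `G` that is transitive on `Ω`, the intersection `S ∩ N` is a Sylow
`p`-subgroup of `N` and the image of `S` is a Sylow `p`-subgroup of `G ⧸ N`. -/
theorem result (p : ℕ) [Fact p.Prime] (Ω : Type*) (G : Subgroup (Equiv.Perm Ω))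
    (hfin : ∀ g ∈ G, {x : Ω | g x ≠ x}.Finite) (N : Subgroup G) [N.Normal] (S : Sylow p G)
    (hS : ∀ x y : Ω, ∃ s : G, s ∈ (S : Subgroup G) ∧ (s : Equiv.Perm Ω) x = y) :
    (∃ P : Sylow p N, (P : Subgroup N) = (S : Subgroup G).subgroupOf N) ∧
    (∃ P : Sylow p (G ⧸ N), (P : Subgroup (G ⧸ N)) =
      (S : Subgroup G).map (QuotientGroup.mk' N)) := by
  classical
  have hN : N.Normal := inferInstance
  have hS' : ∀ x y : Ω, ∃ s ∈ (S : Subgroup G), s • x = y := fun x y => by
    obtain ⟨s, h1, h2⟩ := hS x y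
    exact ⟨s, h1, h2⟩
  -- the local statement around a single element
  have main : ∀ t : G, ∃ B : Set Ω, t ∈ fixOut G B ∧ Finite (fixOut G B) ∧
      ∃ P : Sylow p (fixOut G B), (P : Subgroup (fixOut G B)) =
        (S : Subgroup G).subgroupOf (fixOut G B) := by
    intro t
    rcases isEmpty_or_nonempty Ω with hΩ | ⟨⟨ω⟩⟩
    · have hsub : Subsingleton G := ⟨fun a b => by
        apply Subtype.ext; ext x; exact (IsEmpty.false x).elim⟩
      refine ⟨∅, fun x _ => (IsEmpty.false x).elim, inferInstance, ?_⟩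
      obtain ⟨P⟩ : Nonempty (Sylow p (fixOut G (∅ : Set Ω))) := Sylow.nonempty
      refine ⟨P, ?_⟩
      ext x
      have hx : x = 1 := Subtype.ext (Subsingleton.elim _ _)
      rw [hx]
      simp [one_mem]
    · have hfin' : FinSupp (S : Subgroup G) Ω := fun g => hfin _ g.1.2
      have : IsPretransitive (S : Subgroup G) Ω := ⟨fun x y => by
        obtain ⟨s, h1, h2⟩ := hS' x y
        exact ⟨⟨s, h1⟩, h2⟩⟩
      obtain ⟨B, hB1, hB2, hB3, hB4⟩ := exists_finite_block (Γ := (S : Subgroup G)) S.2 hfin' ω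
        {x : Ω | (t : Equiv.Perm Ω) x ≠ x} (hfin _ t.2)
      refine ⟨B, ?_, fixOut_finite hB1, ?_⟩
      · intro x hx
        by_contra hne
        exact hx (hB2 hne)
      · refine sylow_fixOut S hS' B hB1 ω hB3 ?_
        intro s hs
        exact hB4 ⟨s, hs⟩
  refine ⟨⟨⟨(S : Subgroup G).subgroupOf N, ?_, ?_⟩, rfl⟩,
    ⟨⟨(S : Subgroup G).map (QuotientGroup.mk' N), ?_, ?_⟩, rfl⟩⟩
  · exact S.2.comap_subtype
  · intro Q hQ hle
    refine le_antisymm ?_ hle
    intro q hq
    obtain ⟨B, hB1, hB2, P, hP⟩ := main q.1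
    have hT : IsPGroup p ((Q.map N.subtype).subgroupOf (fixOut G B)) :=
      (hQ.map N.subtype).comap_subtype
    have h1 := le_of_inf_normal_le P (N.subgroupOf (fixOut G B))
      ((Q.map N.subtype).subgroupOf (fixOut G B)) hT
      (by
        intro x hx
        rw [Subgroup.mem_subgroupOf] at hx ⊢
        obtain ⟨y, _, hy⟩ := hx
        rw [← hy]; exact y.2)
      (by
        rintro x ⟨hx1, hx2⟩
        have hx1' : x ∈ (P : Subgroup (fixOut G B)) := hx1
        have hx2' : x ∈ N.subgroupOf (fixOut G B) := hx2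
        rw [hP, Subgroup.mem_subgroupOf] at hx1'
        rw [Subgroup.mem_subgroupOf] at hx2'
        rw [Subgroup.mem_subgroupOf]
        exact ⟨⟨x.1, hx2'⟩, hle (by rw [Subgroup.mem_subgroupOf]; exact hx1'), rfl⟩)
    have h2 : (⟨q.1, hB1⟩ : fixOut G B) ∈ (P : Subgroup (fixOut G B)) :=
      h1 (by rw [Subgroup.mem_subgroupOf]; exact ⟨q, hq, rfl⟩)
    rw [hP, Subgroup.mem_subgroupOf] at h2
    rw [Subgroup.mem_subgroupOf]
    exact h2
  · exact S.2.map _
  · intro Q hQ hle
    refine le_antisymm ?_ hle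
    intro q hq
    obtain ⟨t, rfl⟩ := QuotientGroup.mk'_surjective N q
    obtain ⟨B, hB1, hB2, P, hP⟩ := main t
    have h1 := le_sup_normal P (N.subgroupOf (fixOut G B))
      ((Q.comap (QuotientGroup.mk' N)).subgroupOf (fixOut G B))
      (by
        intro x hx
        rw [Subgroup.mem_subgroupOf, Subgroup.mem_comap] at hx
        obtain ⟨k, hk⟩ := hQ ⟨_, hx⟩
        refine ⟨k, ?_⟩
        rw [Subgroup.mem_subgroupOf]
        have h2 := congrArg Subtype.val hk
        change (QuotientGroup.mk' N x.1) ^ p ^ k = 1 at h2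
        rw [← map_pow] at h2
        exact (QuotientGroup.eq_one_iff _).1 h2)
      (by
        intro x hx
        rw [hP, Subgroup.mem_subgroupOf] at hx
        rw [Subgroup.mem_subgroupOf, Subgroup.mem_comap]
        exact hle ⟨x.1, hx, rfl⟩)
    have h2 : (⟨t, hB1⟩ : fixOut G B) ∈ (P : Subgroup (fixOut G B)) ⊔
        N.subgroupOf (fixOut G B) :=
      h1 (by rw [Subgroup.mem_subgroupOf, Subgroup.mem_comap]; exact hq)
    rw [Subgroup.mem_sup_of_normal_right] at h2
    obtain ⟨y, hy, z, hz, hyz⟩ := h2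
    rw [hP, Subgroup.mem_subgroupOf] at hy
    rw [Subgroup.mem_subgroupOf] at hz
    refine ⟨y.1, hy, ?_⟩
    have h3 : t = y.1 * z.1 := (congrArg Subtype.val hyz).symm
    rw [h3, map_mul]
    have h4 : QuotientGroup.mk' N z.1 = 1 := (QuotientGroup.eq_one_iff _).2 hz
    rw [h4, mul_one]

end Pool.Agent.Results.MP_055c61_al.SylowInheritance
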